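import Pool.Agent.AXS.All
import Pool.Agent.AXS.Statement

/-!
# The strong comparison principle for `p`-harmonic functions, one of which is axially symmetric
-/

set_option autoImplicit false

open Set MeasureTheory Filter Topology

namespace Pool.Agent.Results.MP_3f0161_an.AxiallySymmetric

open Pool.Agent.SCP.Statement Pool.Agent.AXS.Statement

/-- Let `u` and `v` be `p`-harmonic on a domain `Ω` of `ℝⁿ`, `n ≥ 3`, `p > 1`, with `u ≤ v` or
`v ≤ u`, and `u = v` at some point. If `u` is invariant under the rotations about a line (and `C³`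
off its critical points, as all `p`-harmonic functions are), then `u = v` in `Ω`. -/
theorem result (n : ℕ) (hn : 3 ≤ n) (p : ℝ) (hp : 1 < p) (Ω : Set (R n)) (hΩ : IsOpen Ω)
    (hc : IsConnected Ω) (u v : R n → ℝ) (hu : PHarmonic p Ω u) (hv : PHarmonic p Ω v)
    (huv : (∀ x ∈ Ω, u x ≤ v x) ∨ (∀ x ∈ Ω, v x ≤ u x)) (hx : ∃ x₀ ∈ Ω, u x₀ = v x₀)
    (a e : R n) (he : ‖e‖ = 1) (hsym : AxiallySymmetric a e Ω u) (hreg : C3OffCritical Ω u) :
    ∀ x ∈ Ω, u x = v x :=
  Pool.Agent.AXS.final n hn p hp Ω hΩ hc u v hu hv huv hx a e he hsym hreg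

end Pool.Agent.Results.MP_3f0161_an.AxiallySymmetric
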