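import Pool.Agent.SCP.All
import Pool.Agent.SCP.Statement

/-!
# The strong comparison principle for `p`-harmonic functions, one of which has conical critical points
-/

set_option autoImplicit false

open Set MeasureTheory Filter Topology

namespace Pool.Agent.Results.MP_3f0161_an.ConicalCritical

open Pool.Agent.SCP.Statement

/-- the map to the plane -/
noncomputable def plane {n : ℕ} (f g : R n → ℝ) (x : R n) : R 2 := !₂[f x, g x]

theorem conical {n : ℕ} {p k : ℝ} {u f g : R n → ℝ} {x₀ : R n}
    (h : ConicalPoint p k u f g x₀) : Pool.Agent.SCP.ConicalPoint p k u x₀ (plane f g) := by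
  obtain ⟨hf2, hg2, hf0, hg0, hf1, hg1, hfg⟩ := h.defining
  have hfd : DifferentiableAt ℝ f x₀ := hf2.differentiableAt (by norm_num)
  have hgd : DifferentiableAt ℝ g x₀ := hg2.differentiableAt (by norm_num)
  have hsmooth : ContDiffAt ℝ 2 (plane f g) x₀ := by
    rw [contDiffAt_euclidean]
    intro i
    fin_cases i
    · simpa [plane] using hf2
    · simpa [plane] using hg2
  have hder : ∀ a : R n, fderiv ℝ (plane f g) x₀ a =
      !₂[inner ℝ (grad f x₀) a, inner ℝ (grad g x₀) a] := by
    intro a
    have hd : DifferentiableAt ℝ (plane f g) x₀ := hsmooth.differentiableAt (by norm_num)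
    ext i
    have h1 : fderiv ℝ (plane f g) x₀ a i = fderiv ℝ (fun x => plane f g x i) x₀ a := by
      have := ((EuclideanSpace.proj i : R 2 →L[ℝ] ℝ).hasFDerivAt (x := plane f g x₀)).comp x₀
        hd.hasFDerivAt
      have h2 : fderiv ℝ (fun x => plane f g x i) x₀ =
          (EuclideanSpace.proj i : R 2 →L[ℝ] ℝ).comp (fderiv ℝ (plane f g) x₀) := this.fderiv
      rw [h2]
      rfl
    rw [h1]
    fin_cases i
    · simp only [grad, inner_gradient_left]
      rfl
    · simp only [grad, inner_gradient_left]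
      rfl
  have hadj : ∀ w : R 2, ContinuousLinearMap.adjoint (fderiv ℝ (plane f g) x₀) w =
      w 0 • grad f x₀ + w 1 • grad g x₀ := by
    intro w
    apply ext_inner_right ℝ
    intro a
    rw [ContinuousLinearMap.adjoint_inner_left, hder, inner_add_left, inner_smul_left,
      inner_smul_left]
    simp [PiLp.inner_apply, Fin.sum_univ_two, mul_comm]
  have hnormal : ∀ x, ContinuousLinearMap.adjoint (fderiv ℝ (plane f g) x₀) (plane f g x) =
      normal f g x₀ x := by
    intro x
    rw [hadj]
    rfl
  have hoff : {x | plane f g x ≠ 0} = off f g := by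
    ext x
    show plane f g x ≠ 0 ↔ (f x ≠ 0 ∨ g x ≠ 0)
    rw [ne_eq, ← not_and_or, not_iff_not]
    constructor
    · intro h0
      have h1 : plane f g x 0 = 0 := by rw [h0]; rfl
      have h2 : plane f g x 1 = 0 := by rw [h0]; rfl
      exact ⟨h1, h2⟩
    · rintro ⟨h1, h2⟩
      ext i
      fin_cases i
      · exact h1
      · exact h2
  have hiso : ∀ w : R 2, fderiv ℝ (plane f g) x₀
      (ContinuousLinearMap.adjoint (fderiv ℝ (plane f g) x₀) w) = w := by
    intro w
    rw [hadj, hder]
    have hgf : inner ℝ (grad g x₀) (grad f x₀) = 0 := by rw [real_inner_comm]; exact hfg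
    ext i
    fin_cases i
    · simp [inner_add_right, inner_smul_right, hf1, hfg]
    · simp [inner_add_right, inner_smul_right, hg1, hgf]
  have hnorm : ∀ x, ‖plane f g x‖ = ‖normal f g x₀ x‖ := by
    intro x
    rw [← hnormal, Pool.Agent.SCP.norm_adjoint hiso]
  refine ⟨hsmooth, ?_, hiso, h.one_lt, h.range, ?_, ?_, ?_⟩
  · ext i
    fin_cases i
    · exact hf0
    · exact hg0
  · filter_upwards [h.regular] with x hx hx2
    apply hx
    rw [← hoff]
    exact hx2
  · have h1 := h.radial
    unfold Radial at h1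
    rw [hoff]
    refine h1.congr_left fun x => ?_
    rw [hnormal]
    rfl
  · intro s hs
    rw [hder] at hs
    have hs0 : inner ℝ s (grad f x₀) = 0 := by
      have := congrArg (fun w : R 2 => w 0) hs
      rw [real_inner_comm]
      simpa using this
    have hs1 : inner ℝ s (grad g x₀) = 0 := by
      have := congrArg (fun w : R 2 => w 1) hs
      rw [real_inner_comm]
      simpa using this
    have h1 := h.tangential s hs0 hs1
    rw [hoff]
    refine h1.congr_left fun x => ?_
    rw [hnorm]
    rfl

/-- Let `u` and `v` be `p`-harmonic on a domain `Ω` of `ℝⁿ`, `n ≥ 2`, `p > 1`, with `u ≤ v` or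
`v ≤ u`, and `u = v` at some point. If `u` is `C²` off its critical points and if all critical
points of `u` outside a set `B` with vanishing one-dimensional Hausdorff measure are of conical
type of codimension two, then `u = v` in `Ω`. -/
theorem result (n : ℕ) (hn : 2 ≤ n) (p : ℝ) (hp : 1 < p) (Ω : Set (R n)) (hΩ : IsOpen Ω)
    (hc : IsConnected Ω) (u v : R n → ℝ) (hu : PHarmonic p Ω u) (hv : PHarmonic p Ω v)
    (huv : (∀ x ∈ Ω, u x ≤ v x) ∨ (∀ x ∈ Ω, v x ≤ u x)) (hx : ∃ x₀ ∈ Ω, u x₀ = v x₀)
    (hreg : SmoothOffCritical Ω u) (B : Set (R n)) (hB : Measure.hausdorffMeasure 1 B = 0)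
    (hcon : ∀ x ∈ Ω, grad u x = 0 → x ∉ B → ∃ k f g, ConicalPoint p k u f g x) :
    ∀ x ∈ Ω, u x = v x := by
  apply Pool.Agent.SCP.final n p Ω B u v hn hp hΩ hc hu hv huv hx hreg hB
  intro x hx hg hxB
  obtain ⟨k, f, g, h⟩ := hcon x hx hg hxB
  exact ⟨k, plane f g, conical h⟩

end Pool.Agent.Results.MP_3f0161_an.ConicalCritical
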