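import Pool.Agent.SCN.All

/-!
# The strong comparison principle for `p`-harmonic functions, `p` near 2, bounded frequency
-/

set_option autoImplicit false

open Set MeasureTheory Metric

namespace Pool.Agent.Results.MP_3f0161_an.NearTwo

/-- The Euclidean space `ℝⁿ`. -/
abbrev R (n : ℕ) : Type := EuclideanSpace ℝ (Fin n)

variable {n : ℕ}

/-- `u` is `p`-harmonic in `Ω`: a `C¹` weak solution of the `p`-Laplace equation. -/
def PHarmonic (p : ℝ) (Ω : Set (R n)) (u : R n → ℝ) : Prop :=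
  ContDiffOn ℝ 1 u Ω ∧ ∀ φ : R n → ℝ, ContDiff ℝ (⊤ : ℕ∞) φ → HasCompactSupport φ →
    tsupport φ ⊆ Ω → ∫ x, ‖gradient u x‖ ^ (p - 2) * (fderiv ℝ φ x (gradient u x)) = 0

/-- The energy of `u` in the set `B`. -/
noncomputable def energy (p : ℝ) (u : R n → ℝ) (B : Set (R n)) : ℝ :=
  ∫ y in B, ‖gradient u y‖ ^ p

/-- The frequency of `u` at `x` is bounded at one scale `r`: the energy of `u` in the ball with
the centre `x` and the radius `4r` is at most `Λ` times the energy in the ball with the radius `r`,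
which is not zero. -/
def BoundedFrequency (p Λ : ℝ) (Ω : Set (R n)) (u : R n → ℝ) (x : R n) : Prop :=
  ∃ r : ℝ, 0 < r ∧ closedBall x (4 * r) ⊆ Ω ∧ 0 < energy p u (ball x r) ∧
    energy p u (ball x (4 * r)) ≤ Λ * energy p u (ball x r)

/-- For every dimension `n` and every `Λ` there is `ε > 0` such that for `|p - 2| < ε` the strong
comparison principle holds for `p`-harmonic functions `u ≤ v` on a domain of `ℝⁿ`, if at every
contact point one of the two functions has frequency bounded by `Λ` at one scale. -/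
theorem result (n : ℕ) (hn : 1 ≤ n) (Λ : ℝ) :
    ∃ ε : ℝ, 0 < ε ∧ ∀ p : ℝ, |p - 2| < ε →
      ∀ (Ω : Set (R n)) (u v : R n → ℝ), IsOpen Ω → IsConnected Ω →
        PHarmonic p Ω u → PHarmonic p Ω v → (∀ x ∈ Ω, u x ≤ v x) →
        (∀ x ∈ Ω, u x = v x → BoundedFrequency p Λ Ω u x ∨ BoundedFrequency p Λ Ω v x) →
        (∃ x ∈ Ω, u x = v x) → ∀ x ∈ Ω, u x = v x := by
  obtain ⟨N, hN⟩ := pow_unbounded_of_one_lt Λ (one_lt_two : (1 : ℝ) < 2)
  obtain ⟨ε, hε, h⟩ := Pool.Agent.SCN.a_FIN n N hn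
  refine ⟨ε, hε, fun p hp Ω u v hΩ hc hu hv huv hf hex => ?_⟩
  have key : ∀ (f : R n → ℝ) (x : R n), BoundedFrequency p Λ Ω f x →
      Pool.Agent.SCN.Freq p Ω f x N := by
    rintro f x ⟨r, hr, h1, h2, h3⟩
    exact ⟨r, hr, h1, h2, h3.trans (mul_le_mul_of_nonneg_right hN.le h2.le)⟩
  exact h p hp Ω u v hΩ hc hu hv (Or.inl huv)
    (fun x hx hxe => (hf x hx hxe).imp (key u x) (key v x)) hex

end Pool.Agent.Results.MP_3f0161_an.NearTwo
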