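import Pool.Agent.SCN.All

/-!
# The strong comparison principle for `p`-harmonic functions on compact sets, `p` near 2
-/

set_option autoImplicit false

open Set MeasureTheory Metric

namespace Pool.Agent.Results.MP_3f0161_an.NearTwoCompact

/-- The Euclidean space `ℝⁿ`. -/
abbrev R (n : ℕ) : Type := EuclideanSpace ℝ (Fin n)

variable {n : ℕ}

/-- `u` is `p`-harmonic in `Ω`: a `C¹` weak solution of the `p`-Laplace equation. -/
def PHarmonic (p : ℝ) (Ω : Set (R n)) (u : R n → ℝ) : Prop :=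
  ContDiffOn ℝ 1 u Ω ∧ ∀ φ : R n → ℝ, ContDiff ℝ (⊤ : ℕ∞) φ → HasCompactSupport φ →
    tsupport φ ⊆ Ω → ∫ x, ‖gradient u x‖ ^ (p - 2) * (fderiv ℝ φ x (gradient u x)) = 0

/-- Let `K₀` and `K` be compact subsets of the domain `Ω` of `ℝⁿ` and `Λ` a constant. There is
`ε > 0` such that for `|p - 2| < ε`: if `u` is `p`-harmonic in `Ω`, with finite energy in `Ω` which
is at most `Λ` times its energy in `K₀`, then every `p`-harmonic function `v` in `Ω` which is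
`≥ u` or `≤ u` and equal to `u` at some point of `K` is equal to `u` on `K`. -/
theorem result (n : ℕ) (hn : 1 ≤ n) (Ω K₀ K : Set (R n)) (hΩ : IsOpen Ω) (hc : IsConnected Ω)
    (hK₀ : IsCompact K₀) (hK₀Ω : K₀ ⊆ Ω) (hK : IsCompact K) (hKΩ : K ⊆ Ω) (Λ : ℝ) :
    ∃ ε : ℝ, 0 < ε ∧ ∀ p : ℝ, |p - 2| < ε →
      ∀ u v : R n → ℝ, PHarmonic p Ω u → PHarmonic p Ω v →
        ((∀ x ∈ Ω, u x ≤ v x) ∨ ∀ x ∈ Ω, v x ≤ u x) →
        IntegrableOn (fun y => ‖gradient u y‖ ^ p) Ω →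
        ∫ y in Ω, ‖gradient u y‖ ^ p ≤ Λ * ∫ y in K₀, ‖gradient u y‖ ^ p →
        (∃ x ∈ K, u x = v x) → ∀ x ∈ K, u x = v x :=
  Pool.Agent.SCN.a_KK n Ω K₀ K Λ hn hΩ hc hK₀ hK₀Ω hK hKΩ

end Pool.Agent.Results.MP_3f0161_an.NearTwoCompact
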